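import Mathlib
import Pool.Agent.Results.MP_8b8716_co.ThreeValue

/-!
The chromatic number of the unit-distance graph on `ℚ(√2) × ℚ(√2)`.
-/

set_option autoImplicit false

namespace Pool.Agent.Results.MP_8b8716_co.SqrtTwo

open Pool.Agent.Results.MP_8b8716_co.ThreeValue Polynomial

/-- the field `ℚ(√2)`, written out -/
noncomputable def K : IntermediateField ℚ ℝ where
  carrier := {r | ∃ x y : ℚ, r = x + y * √2}
  mul_mem' := by
    rintro _ _ ⟨x, y, rfl⟩ ⟨z, w, rfl⟩
    refine ⟨x * z + 2 * y * w, x * w + y * z, ?_⟩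
    have h : √(2 : ℝ) * √2 = 2 := Real.mul_self_sqrt (by norm_num)
    push_cast
    linear_combination (y : ℝ) * w * h
  one_mem' := ⟨1, 0, by simp⟩
  add_mem' := by
    rintro _ _ ⟨x, y, rfl⟩ ⟨z, w, rfl⟩
    exact ⟨x + z, y + w, by push_cast; ring⟩
  zero_mem' := ⟨0, 0, by simp⟩
  algebraMap_mem' := fun r => ⟨r, 0, by simp⟩
  inv_mem' := by
    rintro _ ⟨x, y, rfl⟩
    have h : √(2 : ℝ) * √2 = 2 := Real.mul_self_sqrt (by norm_num)
    by_cases h0 : x = 0 ∧ y = 0
    · obtain ⟨rfl, rfl⟩ := h0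
      exact ⟨0, 0, by simp⟩
    · have hne : ∀ x y : ℚ, ¬ (x = 0 ∧ y = 0) → ((x : ℝ) + y * √2) ≠ 0 := by
        intro x y h0 heq
        by_cases hy : y = 0
        · subst hy
          apply h0
          refine ⟨?_, rfl⟩
          simpa using heq
        · have hirr : Irrational (√2) := irrational_sqrt_two
          apply hirr
          refine ⟨-x / y, ?_⟩
          have hy' : (y : ℝ) ≠ 0 := by exact_mod_cast hy
          push_cast
          field_simp
          linear_combination (-1 : ℝ) * heq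
      have h1 := hne x y h0
      have h2 := hne x (-y) (by
        intro h3
        exact h0 ⟨h3.1, by simpa using h3.2⟩)
      have h3 : ((x ^ 2 - 2 * y ^ 2 : ℚ) : ℝ) = (x + y * √2) * (x + ((-y : ℚ) : ℝ) * √2) := by
        push_cast
        linear_combination ((y : ℝ) ^ 2) * h
      have h4 : ((x ^ 2 - 2 * y ^ 2 : ℚ) : ℝ) ≠ 0 := by
        rw [h3]
        exact mul_ne_zero h1 h2
      refine ⟨x / (x ^ 2 - 2 * y ^ 2), -y / (x ^ 2 - 2 * y ^ 2), ?_⟩
      rw [eq_comm, ← mul_left_inj' h1, inv_mul_cancel₀ h1]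
      push_cast at h4 ⊢
      field_simp
      linear_combination (-(y : ℝ) ^ 2) * h

lemma adjoin_le : IntermediateField.adjoin ℚ {√(2 : ℝ)} ≤ K := by
  rw [IntermediateField.adjoin_le_iff]
  rintro _ rfl
  exact ⟨0, 1, by simp⟩

/-- algebraic integers of `ℚ(√2)` -/
lemma int_coords (x y : ℚ) (h : IsIntegral ℤ ((x : ℝ) + y * √2)) :
    ∃ m n : ℤ, x = m ∧ y = n := by
  have h2 : √(2 : ℝ) * √2 = 2 := Real.mul_self_sqrt (by norm_num)
  by_cases hy : y = 0
  · subst hy
    have h' : IsIntegral ℤ (algebraMap ℚ ℝ x) := by simpa using h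
    rw [isIntegral_algebraMap_iff (algebraMap ℚ ℝ).injective] at h'
    obtain ⟨m, hm⟩ := IsIntegrallyClosed.isIntegral_iff.mp h'
    exact ⟨m, 0, by simpa using hm.symm, by simp⟩
  · set a : ℝ := (x : ℝ) + y * √2 with ha
    set p : ℚ[X] := X ^ 2 + (C (-(2 * x)) * X + C (x ^ 2 - 2 * y ^ 2)) with hp
    have hdeg : (C (-(2 * x)) * X + C (x ^ 2 - 2 * y ^ 2) : ℚ[X]).degree < (2 : ℕ) :=
      lt_of_le_of_lt degree_linear_le (by norm_num)
    have hmonic : p.Monic := monic_X_pow_add hdeg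
    have hnat : p.natDegree = 2 := by
      rw [hp]
      compute_degree!
    have hroot : aeval a p = 0 := by
      rw [hp]
      simp only [map_add, map_mul, map_pow, aeval_X, aeval_C, eq_ratCast]
      push_cast
      rw [ha]
      linear_combination ((y : ℝ) ^ 2) * h2
    have hirr : a ∉ (algebraMap ℚ ℝ).range := by
      rintro ⟨r, hr⟩
      have hr' : (r : ℝ) = x + y * √2 := hr
      apply irrational_sqrt_two
      refine ⟨(r - x) / y, ?_⟩
      have hy' : (y : ℝ) ≠ 0 := by exact_mod_cast hy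
      push_cast
      field_simp
      linear_combination hr'
    have hint : IsIntegral ℚ a := h.tower_top
    have hdvd : minpoly ℚ a ∣ p := minpoly.dvd _ _ hroot
    have hle : 2 ≤ (minpoly ℚ a).natDegree := (minpoly.two_le_natDegree_iff hint).mpr hirr
    have heq : p = minpoly ℚ a :=
      Polynomial.eq_of_monic_of_dvd_of_natDegree_le (minpoly.monic hint) hmonic hdvd (by omega)
    have hZ : minpoly ℚ a = (minpoly ℤ a).map (algebraMap ℤ ℚ) :=
      minpoly.isIntegrallyClosed_eq_field_fractions' ℚ h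
    have hc1 : p.coeff 1 = -(2 * x) := by
      rw [hp, coeff_add, coeff_add, coeff_X_pow, coeff_C_mul, coeff_X_one, coeff_C]
      norm_num
    have hc0 : p.coeff 0 = x ^ 2 - 2 * y ^ 2 := by
      rw [hp, coeff_add, coeff_add, coeff_X_pow, coeff_C_mul, coeff_X_zero, coeff_C_zero]
      norm_num
    have e1 : -(2 * x) = ((minpoly ℤ a).coeff 1 : ℚ) := by
      rw [← hc1, heq, hZ, coeff_map]; rfl
    have e0 : x ^ 2 - 2 * y ^ 2 = ((minpoly ℤ a).coeff 0 : ℚ) := by
      rw [← hc0, heq, hZ, coeff_map]; rfl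
    set c1 := (minpoly ℤ a).coeff 1
    set c0 := (minpoly ℤ a).coeff 0
    -- `4 y` is an integer
    have h8 : (4 * y) ^ 2 = ((2 * (c1 ^ 2 - 4 * c0) : ℤ) : ℚ) := by
      push_cast
      rw [← e1, ← e0]
      ring
    have h4y : IsIntegral ℤ (4 * y) := by
      have : IsIntegral ℤ ((4 * y) ^ 2) := by
        rw [h8]; exact isIntegral_algebraMap
      exact this.of_pow (by norm_num)
    obtain ⟨t, ht⟩ := IsIntegrallyClosed.isIntegral_iff.mp h4y
    have ht' : (t : ℚ) = 4 * y := ht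
    have ht2 : t ^ 2 = 2 * (c1 ^ 2 - 4 * c0) := by
      rw [← ht'] at h8
      exact_mod_cast h8
    have hteven : Even t := by
      have : Even (t ^ 2) := ⟨c1 ^ 2 - 4 * c0, by rw [ht2]; ring⟩
      exact (Int.even_pow.mp this).1
    obtain ⟨s, hs⟩ := hteven
    have hs2 : 2 * s ^ 2 = c1 ^ 2 - 4 * c0 := by
      rw [hs] at ht2
      nlinarith
    have hc1even : Even c1 := by
      have : Even (c1 ^ 2) := ⟨s ^ 2 + 2 * c0, by linarith⟩
      exact (Int.even_pow.mp this).1
    obtain ⟨u, hu⟩ := hc1even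
    have hs3 : s ^ 2 = 2 * (u ^ 2 - c0) := by
      rw [hu] at hs2
      nlinarith
    have hseven : Even s := by
      have : Even (s ^ 2) := ⟨u ^ 2 - c0, by rw [hs3]; ring⟩
      exact (Int.even_pow.mp this).1
    obtain ⟨v, hv⟩ := hseven
    refine ⟨-u, v, ?_, ?_⟩
    · have : (c1 : ℚ) = u + u := by exact_mod_cast congrArg (Int.cast : ℤ → ℚ) hu
      push_cast
      linarith
    · have h5 : (t : ℚ) = s + s := by exact_mod_cast congrArg (Int.cast : ℤ → ℚ) hs
      have h6 : (s : ℚ) = v + v := by exact_mod_cast congrArg (Int.cast : ℤ → ℚ) hv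
      linarith

/-- The chromatic number of the unit-distance graph on `ℚ(√2) × ℚ(√2)` is `2`. -/
theorem result :
    (unitDistGraph (IntermediateField.adjoin ℚ {√(2 : ℝ)})).chromaticNumber = 2 := by
  set F := IntermediateField.adjoin ℚ {√(2 : ℝ)} with hFdef
  have halg : Algebra.IsAlgebraic ℚ F := by
    have hint : IsIntegral ℚ √(2 : ℝ) := by
      refine ⟨X ^ 2 - C 2, monic_X_pow_sub_C _ (by norm_num), ?_⟩
      simp
    have : FiniteDimensional ℚ F := IntermediateField.adjoin.finiteDimensional hint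
    infer_instance
  apply le_antisymm
  · refine SimpleGraph.chromaticNumber_le_iff_colorable.mpr (two_colorable_of_no F halg ?_)
    rintro ⟨a, ha, hb⟩
    have ha' : IsIntegral ℤ (a : ℝ) := ha.algebraMap (B := ℝ)
    have hb' : IsIntegral ℤ (((a ^ 2 + 1) / 4 : F) : ℝ) := hb.algebraMap (B := ℝ)
    obtain ⟨x, y, hxy⟩ := adjoin_le a.2
    have h2 : √(2 : ℝ) * √2 = 2 := Real.mul_self_sqrt (by norm_num)
    rw [hxy] at ha'
    obtain ⟨m, n, rfl, rfl⟩ := int_coords x y ha'
    have h4 : ((4 : F) : ℝ) = 4 := by norm_cast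
    have e : (((a ^ 2 + 1) / 4 : F) : ℝ) =
        (((m ^ 2 + 2 * n ^ 2 + 1) / 4 : ℚ) : ℝ) + ((m * n / 2 : ℚ) : ℝ) * √2 := by
      push_cast
      rw [hxy, h4]
      push_cast
      linear_combination ((n : ℝ) ^ 2 / 4) * h2
    rw [e] at hb'
    obtain ⟨u, v, hu, hv⟩ := int_coords _ _ hb'
    have hu' : m ^ 2 + 2 * n ^ 2 + 1 = 4 * u := by
      have : ((m ^ 2 + 2 * n ^ 2 + 1 : ℤ) : ℚ) = ((4 * u : ℤ) : ℚ) := by
        push_cast
        linarith
      exact_mod_cast this
    have hv' : m * n = 2 * v := by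
      have : ((m * n : ℤ) : ℚ) = ((2 * v : ℤ) : ℚ) := by
        push_cast
        linarith
      exact_mod_cast this
    rcases Int.even_or_odd' m with ⟨m', rfl | rfl⟩
    · have : 2 * (2 * m' ^ 2 + n ^ 2 - 2 * u) = -1 := by linarith
      omega
    · have hne : Even n := by
        rcases Int.even_or_odd' n with ⟨n', rfl | rfl⟩
        · exact ⟨n', by ring⟩
        · exfalso
          have : 2 * (2 * m' * n' + m' + n' - v) = -1 := by linarith
          omega
      obtain ⟨n', rfl⟩ := hne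
      have : 4 * (m' ^ 2 + m' + 2 * n' ^ 2 - u) = -2 := by linarith
      omega
  · have : (unitDistGraph F).Adj (0, 0) (1, 0) := by
      show ((0 : F) - 1) ^ 2 + ((0 : F) - 0) ^ 2 = 1
      ring
    exact SimpleGraph.two_le_chromaticNumber_of_adj this

end Pool.Agent.Results.MP_8b8716_co.SqrtTwo
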